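import Mathlib
import Pool.Agent.H202Kap.C

/-! MP_331e4f_al: groups whose augmentation ideal is the Jacobson radical and squares of groups. -/

set_option autoImplicit false

namespace Pool.Agent.Results.MP_331e4f_al.SquareSubgroups

open Pool.Agent.Helper826.Kap Pool.Agent.H202Kap

/-- If `ω(K[G]) = J(K[G])` and `H × H` embeds in `G`, then `ω(K[H])` is nil. -/
theorem result (K : Type) [Field K] (G H : Type) [Group G] [Group H] (φ : H × H →* G)
    (hφ : Function.Injective φ) (hG : RadicalIsAug K G) : NilAug K H :=
  square K G (le_of_eq hG.symm) H φ hφ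

end Pool.Agent.Results.MP_331e4f_al.SquareSubgroups
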