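import Mathlib
import Pool.Agent.H202Kap.C

/-! MP_331e4f_al: groups whose augmentation ideal is the Jacobson radical and wreath products. -/

set_option autoImplicit false

namespace Pool.Agent.Results.MP_331e4f_al.WreathSubgroups

open Pool.Agent.Helper826.Kap Pool.Agent.H202Kap

/-- Let `K` be a field.
(1) If `ω(K[G]) = J(K[G])` and a restricted wreath product `D ≀ Q` with `D ≠ 1` embeds in `G`, then
`Q` is locally finite.
(2) If `ω(K[G]) = J(K[G])` and `D ≀ G` embeds in `G` for some `D ≠ 1`, then `K` has prime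
characteristic `p` and `G` is a locally finite `p`-group.
(3) If `D ≠ 1` is locally finite and `ω(K[D ≀ Q]) = J(K[D ≀ Q])`, then `K` has prime characteristic
`p` and `D ≀ Q` is a locally finite `p`-group. -/
theorem result (K : Type) [Field K] :
    (∀ (G D Q : Type) [Group G] [Group D] [Nontrivial D] [Group Q] (φ : Wr D Q →* G),
      Function.Injective φ → RadicalIsAug K G → LocFin Q) ∧
    (∀ (G D : Type) [Group G] [Group D] [Nontrivial D] (φ : Wr D G →* G),
      Function.Injective φ → RadicalIsAug K G →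
      ∃ p : ℕ, p.Prime ∧ CharP K p ∧ IsPGroup p G ∧ LocFin G) ∧
    (∀ (D Q : Type) [Group D] [Nontrivial D] [Group Q], LocFin D → RadicalIsAug K (Wr D Q) →
      ∃ p : ℕ, p.Prime ∧ CharP K p ∧ IsPGroup p (Wr D Q) ∧ LocFin (Wr D Q)) := by
  refine ⟨?_, ?_, ?_⟩
  · intro G D Q _ _ _ _ φ hφ hJ S
    exact locFin_top K G (le_of_eq hJ.symm) D Q φ hφ S
  · intro G D _ _ _ φ hφ hJ
    have hlf : LocFin G := fun S => locFin_top K G (le_of_eq hJ.symm) D G φ hφ S
    have hnt : Nontrivial G :=
      (hφ.comp (baseHom_injective D G)).nontrivial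
    obtain ⟨p, h1, h2, h3, -⟩ := forward K G (le_of_eq hJ.symm) hlf
    exact ⟨p, h1, h2, h3, hlf⟩
  · intro D Q _ _ _ hD hJ
    have hQ : LocFin Q := fun S => locFin_top K (Wr D Q) (le_of_eq hJ.symm) D Q
      (MonoidHom.id _) Function.injective_id S
    have hlf : LocFin (Wr D Q) := wreath_locally_finite D Q hD hQ
    have hnt : Nontrivial (Wr D Q) := (baseHom_injective D Q).nontrivial
    obtain ⟨p, h1, h2, h3, -⟩ := forward K (Wr D Q) (le_of_eq hJ.symm) hlf
    exact ⟨p, h1, h2, h3, hlf⟩

end Pool.Agent.Results.MP_331e4f_al.WreathSubgroups
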